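import Mathlib
import Pool.Agent.H981R3.LN.Loc

set_option autoImplicit false

/-! # Local counts for the condition that the index of `D q ^ 2` divides `k` -/

namespace Pool.Agent.H981R3.LN2

open Finset
open Pool.Agent.H386R2.Artin (Good hL power_residue LC_pos)
open Pool.Agent.H981R3.LN

/-- the weight of the prime `l` -/
noncomputable def wl (s : ℝ) (l : ℕ) : ℝ := if l = 2 then 1 + s else 1

/-- the local density -/
noncomputable def gD (s : ℝ) (k n : ℕ) : ℝ := ∏ l ∈ Sk k n, (1 - wl s l / (ql k l : ℝ))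

/-- the local density with the primes up to `L` only -/
noncomputable def gDL (s : ℝ) (k L n : ℕ) : ℝ :=
  ∏ l ∈ (Sk k n).filter (fun l => l ≤ L), (1 - wl s l / (ql k l : ℝ))

lemma fac_bounds {s : ℝ} (hs : -1 ≤ s) (hs1 : s ≤ 1) {k l : ℕ} (hl : l.Prime) :
    0 ≤ 1 - wl s l / (ql k l : ℝ) ∧ 1 - wl s l / (ql k l : ℝ) ≤ 1 := by
  have h1 : (l : ℝ) ≤ ql k l := by exact_mod_cast ql_ge hl.one_le
  have h2 : (2 : ℝ) ≤ l := by exact_mod_cast hl.two_le
  have h3 : (0 : ℝ) < ql k l := by linarith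
  have hw0 : 0 ≤ wl s l := by
    unfold wl
    split_ifs
    · linarith
    · norm_num
  have hw1 : wl s l ≤ 2 := by
    unfold wl
    split_ifs
    · linarith
    · norm_num
  have h4 : wl s l / (ql k l : ℝ) ≤ 1 := by
    rw [div_le_one h3]
    linarith
  have h5 : 0 ≤ wl s l / (ql k l : ℝ) := by positivity
  constructor <;> linarith

section
variable {p : ℕ} [hp : Fact p.Prime]

lemma gD_nonneg {s : ℝ} (hs : -1 ≤ s) (hs1 : s ≤ 1) (k : ℕ) : 0 ≤ gD s k (p - 1) :=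
  Finset.prod_nonneg fun _ hl => (fac_bounds hs hs1 (Sk_prime (p := p) hl)).1

lemma gD_le_one {s : ℝ} (hs : -1 ≤ s) (hs1 : s ≤ 1) (k : ℕ) : gD s k (p - 1) ≤ 1 :=
  Finset.prod_le_one (fun _ hl => (fac_bounds hs hs1 (Sk_prime (p := p) hl)).1)
    (fun _ hl => (fac_bounds hs hs1 (Sk_prime (p := p) hl)).2)

lemma gDL_nonneg {s : ℝ} (hs : -1 ≤ s) (hs1 : s ≤ 1) (k L : ℕ) : 0 ≤ gDL s k L (p - 1) :=
  Finset.prod_nonneg fun _ hl => (fac_bounds hs hs1 (Sk_prime (p := p) (mem_filter.1 hl).1)).1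

lemma gDL_le_one {s : ℝ} (hs : -1 ≤ s) (hs1 : s ≤ 1) (k L : ℕ) : gDL s k L (p - 1) ≤ 1 :=
  Finset.prod_le_one (fun _ hl => (fac_bounds hs hs1 (Sk_prime (p := p) (mem_filter.1 hl).1)).1)
    (fun _ hl => (fac_bounds hs hs1 (Sk_prime (p := p) (mem_filter.1 hl).1)).2)

lemma gDL_gD {s : ℝ} (hs : -1 ≤ s) (hs1 : s ≤ 1) (k L : ℕ) (hL2 : 2 ≤ L) :
    0 ≤ gDL s k L (p - 1) - gD s k (p - 1) ∧
    gDL s k L (p - 1) - gD s k (p - 1) ≤ hL L (p - 1) := by
  set R := (Sk k (p - 1)).filter (fun l => L < l) with hR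
  have hR1 : ∀ l ∈ R, 1 ≤ l := fun l hl => (Sk_prime (p := p) (mem_filter.1 hl).1).one_le
  obtain ⟨h1, h2, h3⟩ := one_sub_sum_le' k R hR1
  have hg0 := gDL_nonneg (p := p) hs hs1 k L
  have hg1 := gDL_le_one (p := p) hs hs1 k L
  have hsplit : gD s k (p - 1) = gDL s k L (p - 1) * ∏ l ∈ R, (1 - 1 / (ql k l : ℝ)) := by
    unfold gD gDL
    rw [← Finset.prod_filter_mul_prod_filter_not (Sk k (p - 1)) (fun l => l ≤ L)]
    congr 1
    refine Finset.prod_congr ?_ fun l hl => ?_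
    · ext l
      simp only [hR, mem_filter, not_le]
    · rw [hR, mem_filter] at hl
      have : l ≠ 2 := by
        have := hl.2
        omega
      unfold wl
      rw [if_neg this]
  have hh : ∑ l ∈ R, 1 / (l : ℝ) ≤ hL L (p - 1) := by
    unfold hL
    refine Finset.sum_le_sum_of_subset_of_nonneg ?_ fun _ _ _ => by positivity
    intro l hl
    rw [hR, mem_filter] at hl
    rw [mem_filter]
    exact ⟨(mem_filter.1 hl.1).1, hl.2⟩
  rw [hsplit]
  constructor
  · nlinarith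
  · have hh0 : 0 ≤ hL L (p - 1) := Finset.sum_nonneg fun l _ => by positivity
    nlinarith

end

lemma prod_expandD (s : ℝ) (k : ℕ) (P : Finset ℕ) :
    ∏ l ∈ P, (1 - wl s l / (ql k l : ℝ)) = ∑ K ∈ P.powerset,
    (-1 : ℝ) ^ #K * ((∏ l ∈ K, wl s l) / ((∏ l ∈ K, ql k l : ℕ) : ℝ)) := by
  have : ∀ l ∈ P, (1 - wl s l / (ql k l : ℝ)) = -(wl s l / (ql k l : ℝ)) + 1 := by
    intro l _; ring
  rw [Finset.prod_congr rfl this, Finset.prod_add]
  refine Finset.sum_congr rfl fun K _ => ?_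
  rw [Finset.prod_const_one, mul_one, Finset.prod_neg]
  congr 1
  push_cast
  rw [Finset.prod_div_distrib]

section
variable {p : ℕ} [hp : Fact p.Prime]

open Classical in
/-- number of elements of `E` for which the index of `a q` divides `k` -/
theorem count_abs (E : Finset ℕ) (M : ℝ) (hM : 0 ≤ M) (s : ℝ) (k : ℕ) (hk : k ≠ 0)
    (a : ℕ → ZMod p) (ha0 : ∀ q ∈ E, a q ≠ 0)
    (hres : ∀ K : Finset ℕ, K ⊆ Sk k (p - 1) →
      |((#(E.filter fun q : ℕ => a q ^ ((p - 1) / ∏ l ∈ K, ql k l) = 1) : ℕ) : ℝ) -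
        (#E : ℝ) * ((∏ l ∈ K, wl s l) / ((∏ l ∈ K, ql k l : ℕ) : ℝ))| ≤ M)
    (L : ℕ) (hL2 : 2 ≤ L) :
    |((#(E.filter (fun q : ℕ => (p - 1) / orderOf (a q) ∣ k)) : ℕ) : ℝ) -
      #E * gDL s k L (p - 1)| ≤
      2 ^ L * M + #E * hL L (p - 1) + (p - 1).primeFactors.card * M := by
  have hp1 : 0 < p - 1 := LC_pos
  obtain ⟨P, hP⟩ : ∃ P, P = (Sk k (p - 1)).filter (fun l => l ≤ L) := ⟨_, rfl⟩
  obtain ⟨R, hR⟩ : ∃ R, R = (Sk k (p - 1)).filter (fun l => L < l) := ⟨_, rfl⟩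
  have hPs : P ⊆ Sk k (p - 1) := by rw [hP]; exact filter_subset _ _
  -- the count with the primes up to L
  have hA : |((#(E.filter fun q : ℕ => ∀ l ∈ P, (a q) ^ ((p - 1) / ql k l) ≠ 1) : ℕ) : ℝ) -
      (#E : ℝ) * gDL s k L (p - 1)| ≤ 2 ^ L * M := by
    have h1 : ((#(E.filter fun q : ℕ => ∀ l ∈ P, (a q) ^ ((p - 1) / ql k l) ≠ 1) : ℕ) : ℝ)
        = ∑ K ∈ P.powerset, (-1 : ℝ) ^ #K *
          ((#(E.filter fun q : ℕ => (a q) ^ ((p - 1) / ∏ l ∈ K, ql k l) = 1) : ℕ) : ℝ) := by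
      rw [Finset.card_filter]
      push_cast
      have : ∀ q ∈ E, (if ∀ l ∈ P, (a q) ^ ((p - 1) / ql k l) ≠ 1 then (1 : ℝ) else 0)
          = ∑ K ∈ P.powerset, (-1 : ℝ) ^ #K *
            (if (a q) ^ ((p - 1) / ∏ l ∈ K, ql k l) = 1 then 1 else 0) := by
        intro q hq
        exact incl_excl _ (ha0 q hq) P hPs
      rw [Finset.sum_congr rfl this, Finset.sum_comm]
      refine Finset.sum_congr rfl fun K _ => ?_
      rw [← Finset.mul_sum]
      congr 1
      rw [Finset.card_filter]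
      push_cast
      rfl
    have hPprod : ∏ l ∈ P, (1 - wl s l / (ql k l : ℝ)) = gDL s k L (p - 1) := by rw [hP]; rfl
    rw [h1, ← hPprod, prod_expandD, Finset.mul_sum, ← Finset.sum_sub_distrib]
    calc |∑ K ∈ P.powerset, ((-1 : ℝ) ^ #K *
          ((#(E.filter fun q : ℕ => (a q) ^ ((p - 1) / ∏ l ∈ K, ql k l) = 1) : ℕ) : ℝ)
          - (#E : ℝ) * ((-1 : ℝ) ^ #K * ((∏ l ∈ K, wl s l) / ((∏ l ∈ K, ql k l : ℕ) : ℝ))))|
        ≤ ∑ K ∈ P.powerset, |(-1 : ℝ) ^ #K *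
          ((#(E.filter fun q : ℕ => (a q) ^ ((p - 1) / ∏ l ∈ K, ql k l) = 1) : ℕ) : ℝ)
          - (#E : ℝ) * ((-1 : ℝ) ^ #K * ((∏ l ∈ K, wl s l) / ((∏ l ∈ K, ql k l : ℕ) : ℝ)))| :=
          Finset.abs_sum_le_sum_abs _ _
      _ ≤ ∑ K ∈ P.powerset, M := by
          refine Finset.sum_le_sum fun K hK => ?_
          have hKP := (Finset.mem_powerset.mp hK).trans hPs
          have h2 := hres K hKP
          have h3 : (-1 : ℝ) ^ #K *
            ((#(E.filter fun q : ℕ => (a q) ^ ((p - 1) / ∏ l ∈ K, ql k l) = 1) : ℕ) : ℝ)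
            - (#E : ℝ) * ((-1 : ℝ) ^ #K * ((∏ l ∈ K, wl s l) / ((∏ l ∈ K, ql k l : ℕ) : ℝ)))
            = (-1 : ℝ) ^ #K * (((#(E.filter fun q : ℕ =>
              (a q) ^ ((p - 1) / ∏ l ∈ K, ql k l) = 1) : ℕ) : ℝ)
              - (#E : ℝ) * ((∏ l ∈ K, wl s l) / ((∏ l ∈ K, ql k l : ℕ) : ℝ))) := by ring
          rw [h3, abs_mul, abs_pow, abs_neg, abs_one, one_pow, one_mul]
          exact h2
      _ = 2 ^ #P * M := by
          rw [Finset.sum_const, Finset.card_powerset, nsmul_eq_mul]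
          push_cast
          ring
      _ ≤ 2 ^ L * M := by
          refine mul_le_mul_of_nonneg_right ?_ hM
          refine pow_le_pow_right₀ (by norm_num) ?_
          have : P ⊆ Finset.Icc 1 L := by
            intro l hl
            rw [hP, Finset.mem_filter] at hl
            exact Finset.mem_Icc.mpr ⟨(Sk_prime (p := p) hl.1).one_le, hl.2⟩
          simpa using Finset.card_le_card this
  set B := E.filter (fun q : ℕ => (p - 1) / orderOf (a q) ∣ k) with hB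
  set A := E.filter (fun q : ℕ => ∀ l ∈ P, (a q) ^ ((p - 1) / ql k l) ≠ 1) with hAdef
  have hBA : B ⊆ A := by
    intro q hq
    rw [hB, Finset.mem_filter, index_iff hk] at hq
    rw [hAdef, Finset.mem_filter]
    exact ⟨hq.1, fun l hl => hq.2.2 l (hPs hl)⟩
  have hAB : A ⊆ B ∪ R.biUnion fun l => E.filter fun q : ℕ => (a q) ^ ((p - 1) / ql k l) = 1 := by
    intro q hq
    rw [hAdef, Finset.mem_filter] at hq
    rw [Finset.mem_union, Finset.mem_biUnion]
    by_cases h : ∀ l ∈ R, (a q) ^ ((p - 1) / ql k l) ≠ 1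
    · left
      rw [hB, Finset.mem_filter, index_iff hk]
      refine ⟨hq.1, ha0 q hq.1, fun l hl => ?_⟩
      rcases le_or_gt l L with h1 | h1
      · exact hq.2 l (by rw [hP, mem_filter]; exact ⟨hl, h1⟩)
      · exact h l (by rw [hR, mem_filter]; exact ⟨hl, h1⟩)
    · right
      push Not at h
      obtain ⟨l, hl, hl1⟩ := h
      exact ⟨l, hl, Finset.mem_filter.mpr ⟨hq.1, hl1⟩⟩
  have h1 : (#B : ℝ) ≤ #A := by exact_mod_cast Finset.card_le_card hBA
  have h2 : (#A : ℝ) ≤ #B + ∑ l ∈ R, ((#E : ℝ) / l + M) := by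
    have h3 : #A ≤ #B + ∑ l ∈ R, #(E.filter fun q : ℕ => (a q) ^ ((p - 1) / ql k l) = 1) :=
      (Finset.card_le_card hAB).trans ((Finset.card_union_le _ _).trans
        (Nat.add_le_add_left Finset.card_biUnion_le _))
    calc (#A : ℝ) ≤ #B + ∑ l ∈ R, (#(E.filter fun q : ℕ => (a q) ^ ((p - 1) / ql k l) = 1) : ℝ) := by
          exact_mod_cast h3
      _ ≤ _ := by
          refine add_le_add_right (Finset.sum_le_sum fun l hl => ?_) _
          rw [hR, Finset.mem_filter] at hl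
          have h4 := hres {l} (by rw [singleton_subset_iff]; exact hl.1)
          rw [Finset.prod_singleton, Finset.prod_singleton] at h4
          have hl2 : l ≠ 2 := by
            have := hl.2
            omega
          have hw : wl s l = 1 := by
            unfold wl
            rw [if_neg hl2]
          rw [hw, abs_le] at h4
          have h5 := h4.2
          have hl1 : 1 ≤ l := (Sk_prime (p := p) hl.1).one_le
          have hl1' : (0 : ℝ) < l := by exact_mod_cast hl1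
          have h6 : (#E : ℝ) / (ql k l : ℝ) ≤ #E / l :=
            div_le_div_of_nonneg_left (Nat.cast_nonneg _) hl1' (by exact_mod_cast ql_ge hl1)
          rw [mul_one_div] at h5
          linarith
  have hsum : ∑ l ∈ R, ((#E : ℝ) / l + M) ≤ #E * hL L (p - 1) + (p - 1).primeFactors.card * M := by
    rw [Finset.sum_add_distrib, Finset.sum_const, nsmul_eq_mul]
    have hRs : R ⊆ (p - 1).primeFactors.filter (fun l => L < l) := by
      intro l hl
      rw [hR, mem_filter] at hl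
      rw [mem_filter]
      exact ⟨(mem_filter.1 hl.1).1, hl.2⟩
    refine add_le_add ?_ ?_
    · unfold hL
      rw [Finset.mul_sum]
      refine le_trans (Finset.sum_le_sum_of_subset_of_nonneg hRs fun _ _ _ => by positivity) ?_
      refine Finset.sum_le_sum fun l _ => ?_
      rw [mul_one_div]
    · refine mul_le_mul_of_nonneg_right ?_ hM
      exact_mod_cast Finset.card_le_card (hRs.trans (filter_subset _ _))
  rw [abs_le] at hA ⊢
  have h2L : (0 : ℝ) ≤ 2 ^ L * M := by positivity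
  have hh : 0 ≤ (#E : ℝ) * hL L (p - 1) := by
    refine mul_nonneg (by positivity) ?_
    unfold hL
    exact Finset.sum_nonneg fun l _ => by positivity
  have hw : 0 ≤ ((p - 1).primeFactors.card : ℝ) * M := by positivity
  constructor
  · linarith [hA.1]
  · linarith [hA.2]

/-- power residues of `m q` -/
lemma res_lin (E : Finset ℕ) (M : ℝ) (m : ℤ) (hE : ∀ q ∈ E, (q : ZMod p) ≠ 0) (hM : 0 ≤ M)
    (hG : Good E M p) (hm : ¬ (p : ℤ) ∣ m) (K : ℕ) (hK : K ∣ p - 1) :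
    |((#(E.filter fun q : ℕ => ((m : ZMod p) * (q : ZMod p)) ^ ((p - 1) / K) = 1) : ℕ) : ℝ) -
      (#E : ℝ) / K| ≤ M := by
  have h1 := power_residue E M m hM hG hm K hK
  have e1 : (E.filter fun q : ℕ => ((m : ZMod p) * (q : ZMod p)) ^ ((p - 1) / K) = 1) =
      (E.filter fun q : ℕ => ((m * (q : ℤ) : ℤ) : ZMod p) ^ ((p - 1) / K) = 1) :=
    filter_congr fun q _ => by simp
  have e2 : (E.filter fun q : ℕ => (q : ZMod p) ≠ 0) = E := by
    rw [filter_eq_self]
    exact hE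
  rw [e2] at h1
  rw [e1]
  exact h1

/-- odd power residues of `D q ^ 2` -/
lemma res_odd (E : Finset ℕ) (M : ℝ) (D : ℤ) (hE : ∀ q ∈ E, (q : ZMod p) ≠ 0) (hM : 0 ≤ M)
    (hG : Good E M p) (hD : ¬ (p : ℤ) ∣ D) (K : ℕ) (hK : K ∣ p - 1) (hKo : Odd K) :
    |((#(E.filter fun q : ℕ => ((D : ZMod p) * (q : ZMod p) ^ 2) ^ ((p - 1) / K) = 1) : ℕ) : ℝ) -
      (#E : ℝ) / K| ≤ M := by
  have hD' : (D : ZMod p) ≠ 0 := by rwa [Ne, ZMod.intCast_zmod_eq_zero_iff_dvd]
  obtain ⟨j, hj⟩ := hKo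
  have hm : ¬ (p : ℤ) ∣ D ^ (j + 1) := fun h => hD (Int.Prime.dvd_pow' hp.out h)
  have h := res_lin E M (D ^ (j + 1)) hE hM hG hm K hK
  refine le_trans (le_of_eq ?_) h
  congr 3
  congr 1
  apply filter_congr
  intro q hq
  have hq0 := hE q hq
  set d : ZMod p := (D : ZMod p) ^ ((p - 1) / K) with hd
  set y : ZMod p := (q : ZMod p) ^ ((p - 1) / K) with hy
  have hdK : d ^ K = 1 := by
    rw [hd, ← pow_mul, Nat.div_mul_cancel hK, ZMod.pow_card_sub_one_eq_one hD']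
  have hyK : y ^ K = 1 := by
    rw [hy, ← pow_mul, Nat.div_mul_cancel hK, ZMod.pow_card_sub_one_eq_one hq0]
  have e1 : ((D : ZMod p) * (q : ZMod p) ^ 2) ^ ((p - 1) / K) = d * y ^ 2 := by
    rw [mul_pow, ← pow_mul, mul_comm 2, pow_mul]
  have e2 : (((D ^ (j + 1) : ℤ) : ZMod p) * (q : ZMod p)) ^ ((p - 1) / K) = d ^ (j + 1) * y := by
    push_cast
    rw [mul_pow, ← pow_mul, mul_comm (j + 1), pow_mul]
  rw [e1, e2]
  have e3 : (d ^ (j + 1) * y) ^ 2 = d * y ^ 2 := by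
    have : d ^ ((j + 1) * 2) = d := by
      rw [show (j + 1) * 2 = K + 1 by omega, pow_succ, hdK, one_mul]
    rw [mul_pow, ← pow_mul, this]
  rw [← e3]
  constructor
  · intro h2
    have hz : (d ^ (j + 1) * y) ^ K = 1 := by
      rw [mul_pow, ← pow_mul, mul_comm (j + 1), pow_mul, hdK, one_pow, hyK, one_mul]
    have h3 : orderOf (d ^ (j + 1) * y) ∣ 2 := orderOf_dvd_of_pow_eq_one h2
    have h4 : orderOf (d ^ (j + 1) * y) ∣ K := orderOf_dvd_of_pow_eq_one hz
    have h5 : orderOf (d ^ (j + 1) * y) ∣ 1 := by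
      have : Nat.Coprime 2 K := by
        rw [hj]
        rw [Nat.coprime_two_left]
        exact ⟨j, rfl⟩
      have h6 := Nat.dvd_gcd h3 h4
      rwa [this] at h6
    exact orderOf_eq_one_iff.1 (Nat.dvd_one.1 h5)
  · intro h2
    rw [h2, one_pow]

/-- even power residues of `D q ^ 2` -/
lemma res_even (E : Finset ℕ) (M : ℝ) (D : ℤ) (hE : ∀ q ∈ E, (q : ZMod p) ≠ 0) (hM : 0 ≤ M)
    (hG : Good E M p) (hD : ¬ (p : ℤ) ∣ D) (K : ℕ) (hK : K ∣ p - 1) (hKe : 2 ∣ K) :
    |((#(E.filter fun q : ℕ => ((D : ZMod p) * (q : ZMod p) ^ 2) ^ ((p - 1) / K) = 1) : ℕ) : ℝ) -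
      (#E : ℝ) * ((1 + (legendreSym p D : ℝ)) / K)| ≤ M := by
  have hD' : (D : ZMod p) ≠ 0 := by rwa [Ne, ZMod.intCast_zmod_eq_zero_iff_dvd]
  have hp1 : 0 < p - 1 := LC_pos
  obtain ⟨j, hj⟩ := hKe
  have hK0 : 0 < K := Nat.pos_of_dvd_of_pos hK hp1
  have hj0 : 0 < j := by omega
  obtain ⟨t, ht⟩ := hK
  have h2p : (p - 1) / 2 = j * t := by
    rw [ht, hj, mul_assoc, Nat.mul_div_cancel_left _ (by norm_num)]
  have hpK : (p - 1) / K = t := by
    rw [ht, Nat.mul_div_cancel_left _ hK0]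
  have hp2 : p / 2 = (p - 1) / 2 := by
    have h1 : p = 2 * (j * t) + 1 := by
      have : p - 1 = 2 * (j * t) := by rw [ht, hj]; ring
      omega
    omega
  rcases legendreSym.eq_one_or_neg_one p hD' with h | h
  · -- residue
    have h1 : IsSquare (D : ZMod p) := (legendreSym.eq_one_iff p hD').1 h
    obtain ⟨r, hr⟩ := h1
    have hr0 : r ≠ 0 := by
      rintro rfl
      exact hD' (by rw [hr, mul_zero])
    have hm : ¬ (p : ℤ) ∣ (r.val : ℤ) := by
      rw [← ZMod.intCast_zmod_eq_zero_iff_dvd, Int.cast_natCast, ZMod.natCast_zmod_val]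
      exact hr0
    have hjd : j ∣ p - 1 := ⟨2 * t, by rw [ht, hj]; ring⟩
    have h2 := res_lin E M (r.val : ℤ) hE hM hG hm j hjd
    refine le_trans (le_of_eq ?_) h2
    have e0 : (#E : ℝ) * ((1 + ((legendreSym p D : ℤ) : ℝ)) / K) = #E / j := by
      have hj1 : (0 : ℝ) < j := by exact_mod_cast hj0
      have h3 : (1 + ((1 : ℤ) : ℝ)) / ((2 * j : ℕ) : ℝ) = 1 / (j : ℝ) := by
        rw [Int.cast_one, Nat.cast_mul, Nat.cast_ofNat, div_eq_div_iff (by positivity)
          (by positivity)]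
        ring
      rw [h, hj, h3, mul_one_div]
    rw [e0]
    congr 3
    congr 1
    apply filter_congr
    intro q hq
    have hpj : (p - 1) / j = 2 * t := by
      rw [ht, hj, show 2 * j * t = j * (2 * t) by ring, Nat.mul_div_cancel_left _ hj0]
    rw [hpK, hpj, hr]
    have : ((((r.val : ℕ) : ℤ) : ZMod p)) = r := by
      rw [Int.cast_natCast, ZMod.natCast_zmod_val]
    rw [this]
    have e : (r * r * (q : ZMod p) ^ 2) ^ t = (r * (q : ZMod p)) ^ (2 * t) := by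
      rw [pow_mul]
      congr 1
      ring
    rw [e]
  · have h1 : (D : ZMod p) ^ (p / 2) = -1 := by
      have := legendreSym.eq_pow p D
      rw [h] at this
      rw [← this]
      push_cast; rfl
    have e0 : (#E : ℝ) * ((1 + ((legendreSym p D : ℤ) : ℝ)) / K) = 0 := by
      rw [h]
      push_cast
      norm_num
    have e1 : (E.filter fun q : ℕ => ((D : ZMod p) * (q : ZMod p) ^ 2) ^ ((p - 1) / K) = 1) = ∅ := by
      rw [filter_eq_empty_iff]
      intro q hq hcon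
      rw [hpK] at hcon
      have h3 : ((D : ZMod p) * (q : ZMod p) ^ 2) ^ ((p - 1) / 2) = 1 := by
        rw [h2p, mul_comm j t, pow_mul, hcon, one_pow]
      have hc : 2 * ((p - 1) / 2) = p - 1 := by
        rw [h2p, ht, hj]; ring
      rw [mul_pow, ← pow_mul, hc, ZMod.pow_card_sub_one_eq_one (hE q hq), mul_one, ← hp2, h1] at h3
      have hp3 : p ≠ 2 := by
        rintro rfl
        omega
      have : Fact (2 < p) := ⟨lt_of_le_of_ne hp.out.two_le (Ne.symm hp3)⟩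
      exact ZMod.neg_one_ne_one h3
    rw [e0, e1]
    simpa using hM

open Classical in
/-- number of elements of `E` for which the index of `D q ^ 2` divides `k` -/
theorem index_countD (E : Finset ℕ) (M : ℝ) (D : ℤ) (k : ℕ) (hk : k ≠ 0)
    (hE : ∀ q ∈ E, (q : ZMod p) ≠ 0) (hM : 0 ≤ M) (hG : Good E M p) (hD : ¬ (p : ℤ) ∣ D)
    (L : ℕ) (hL2 : 2 ≤ L) :
    |((#(E.filter (fun q : ℕ => (p - 1) / orderOf ((D : ZMod p) * (q : ZMod p) ^ 2) ∣ k)) : ℕ) : ℝ) -
      #E * gDL (legendreSym p D : ℝ) k L (p - 1)| ≤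
      2 ^ L * M + #E * hL L (p - 1) + (p - 1).primeFactors.card * M := by
  have hD' : (D : ZMod p) ≠ 0 := by rwa [Ne, ZMod.intCast_zmod_eq_zero_iff_dvd]
  refine count_abs E M hM _ k hk (fun q => (D : ZMod p) * (q : ZMod p) ^ 2)
    (fun q hq => mul_ne_zero hD' (pow_ne_zero _ (hE q hq))) (fun K hK => ?_) L hL2
  have hd : ∏ l ∈ K, ql k l ∣ p - 1 :=
    (prod_dvd_iff k _ K fun l hl => Sk_prime (hK hl)).2 fun l hl => Sk_dvd (hK hl)
  by_cases h2 : 2 ∈ K
  · have hw : ∏ l ∈ K, wl (legendreSym p D : ℝ) l = 1 + (legendreSym p D : ℝ) := by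
      rw [← Finset.mul_prod_erase K _ h2]
      have : ∏ x ∈ K.erase 2, wl (legendreSym p D : ℝ) x = 1 := by
        apply Finset.prod_eq_one
        intro l hl
        unfold wl
        rw [if_neg (Finset.ne_of_mem_erase hl)]
      rw [this, mul_one]
      unfold wl
      rw [if_pos rfl]
    rw [hw]
    refine res_even E M D hE hM hG hD _ hd ?_
    exact dvd_trans (dvd_pow_self 2 (Nat.succ_ne_zero _)) (Finset.dvd_prod_of_mem _ h2)
  · have hw : ∏ l ∈ K, wl (legendreSym p D : ℝ) l = 1 := by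
      apply Finset.prod_eq_one
      intro l hl
      unfold wl
      rw [if_neg]
      rintro rfl
      exact h2 hl
    rw [hw, mul_one_div]
    refine res_odd E M D hE hM hG hD _ hd ?_
    rw [Nat.odd_iff, ← Nat.not_even_iff, even_iff_two_dvd]
    intro h3
    rw [Prime.dvd_finsetProd_iff Nat.prime_two.prime] at h3
    obtain ⟨l, hl, h4⟩ := h3
    have h5 := Nat.prime_two.dvd_of_dvd_pow h4
    rw [Nat.prime_dvd_prime_iff_eq Nat.prime_two (Sk_prime (p := p) (hK hl))] at h5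
    exact h2 (h5 ▸ hl)

end

end Pool.Agent.H981R3.LN2
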