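import Mathlib
import Pool.Agent.H981R3.LN.Lim2
import Pool.Agent.H981R3.LN2.Loc2

set_option autoImplicit false
set_option linter.unusedSectionVars false

/-! # The main term for `W = ⟨D m ^ 2⟩` -/

namespace Pool.Agent.H981R3.LN2

open Finset Filter Topology
open Pool.Agent.H386R2.Artin (PP hL sumH)
open Pool.Agent.H730R2.AA (pc_atTop)
open Pool.Agent.H981R3.LN

/-- the modulus -/
def fD (f : ℕ) (D : ℤ) : ℕ := Nat.lcm f (4 * D.natAbs)

open Classical in
/-- the classes modulo `lcm(f, 4 |D|)` which belong to `A` modulo `f` -/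
noncomputable def A0 (f : ℕ) (A : Finset (ZMod f)ˣ) (D : ℤ) [NeZero (fD f D)] :
    Finset (ZMod (fD f D))ˣ :=
  Finset.univ.filter fun a => InA f A (a : ZMod (fD f D)).val

open Classical in
/-- the classes modulo `lcm(f, 4 |D|)` which belong to `A` modulo `f` and are split in `ℚ(√D)` -/
noncomputable def A1 (f : ℕ) (A : Finset (ZMod f)ˣ) (D : ℤ) [NeZero (fD f D)] :
    Finset (ZMod (fD f D))ˣ :=
  Finset.univ.filter fun a => InA f A (a : ZMod (fD f D)).val ∧
    jacobiSym D (a : ZMod (fD f D)).val = 1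

section
variable (f : ℕ) [NeZero f] (A : Finset (ZMod f)ˣ) (D : ℤ) [NeZero (fD f D)]

lemma f_dvd : f ∣ fD f D := Nat.dvd_lcm_left _ _

lemma D_dvd : 4 * D.natAbs ∣ fD f D := Nat.dvd_lcm_right _ _

lemma inA_mod (p : ℕ) : InA f A (p % fD f D) ↔ InA f A p := by
  have h3 : (((p % fD f D : ℕ)) : ZMod f) = (p : ZMod f) :=
    (ZMod.natCast_eq_natCast_iff _ _ _).2 ((Nat.mod_modEq _ _).of_dvd (f_dvd f D))
  unfold InA
  rw [h3]

lemma jac_mod {p : ℕ} (hp : Odd p) : jacobiSym D (p % fD f D) = jacobiSym D p := by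
  have h1 : Odd (p % fD f D) := by
    rw [Nat.odd_iff] at hp ⊢
    rw [Nat.mod_mod_of_dvd]
    · exact hp
    · exact (Dvd.intro _ (by ring : 2 * (2 * D.natAbs) = 4 * D.natAbs)).trans (D_dvd f D)
  rw [jacobiSym.mod_right D h1, jacobiSym.mod_right D hp, Nat.mod_mod_of_dvd _ (D_dvd f D)]

/-- coprimality to `lcm(f, 4|D|)` of large primes -/
lemma cop {p : ℕ} (hp : p.Prime) (h : fD f D + 1 ≤ p) : Nat.Coprime p (fD f D) := by
  rw [hp.coprime_iff_not_dvd]
  intro hd
  have := Nat.le_of_dvd (NeZero.pos _) hd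
  omega

open Classical in
lemma inA0 {p : ℕ} (hp : p.Prime) (h : fD f D + 1 ≤ p) : InA (fD f D) (A0 f A D) p ↔ InA f A p := by
  constructor
  · rintro ⟨a, ha, h2⟩
    unfold A0 at ha
    rw [mem_filter] at ha
    have h3 := ha.2
    rw [← h2, ZMod.val_natCast, inA_mod] at h3
    exact h3
  · intro h1
    refine ⟨ZMod.unitOfCoprime p (cop f D hp h), ?_, (ZMod.coe_unitOfCoprime _ _).symm⟩
    unfold A0
    rw [mem_filter]
    refine ⟨Finset.mem_univ _, ?_⟩
    rw [ZMod.coe_unitOfCoprime, ZMod.val_natCast, inA_mod]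
    exact h1

open Classical in
lemma inA1 {p : ℕ} (hp : p.Prime) (hp2 : p ≠ 2) (h : fD f D + 1 ≤ p) :
    InA (fD f D) (A1 f A D) p ↔ InA f A p ∧ jacobiSym D p = 1 := by
  have ho : Odd p := hp.odd_of_ne_two hp2
  constructor
  · rintro ⟨a, ha, h2⟩
    unfold A1 at ha
    rw [mem_filter] at ha
    have h3 := ha.2
    rw [← h2, ZMod.val_natCast, inA_mod, jac_mod f D ho] at h3
    exact h3
  · intro h1
    refine ⟨ZMod.unitOfCoprime p (cop f D hp h), ?_, (ZMod.coe_unitOfCoprime _ _).symm⟩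
    unfold A1
    rw [mem_filter]
    refine ⟨Finset.mem_univ _, ?_⟩
    rw [ZMod.coe_unitOfCoprime, ZMod.val_natCast, inA_mod, jac_mod f D ho]
    exact h1

end

open Classical in
lemma gDL_expand (s : ℝ) (k L n : ℕ) (hn : n ≠ 0) : gDL s k L n = ∑ K ∈ (PP L).powerset,
    (-1 : ℝ) ^ #K * ((∏ l ∈ K, wl s l) / ((∏ l ∈ K, ql k l : ℕ) : ℝ)) *
      (if ∏ l ∈ K, ql k l ∣ n then 1 else 0) := by
  unfold gDL
  rw [prod_expandD]
  have hsub : ((Sk k n).filter (fun l => l ≤ L)).powerset ⊆ (PP L).powerset := by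
    rw [Finset.powerset_mono]
    intro l hl
    rw [mem_filter, mem_Sk hn] at hl
    exact mem_PP.2 ⟨hl.2, hl.1.1⟩
  rw [← Finset.sum_subset hsub]
  · refine Finset.sum_congr rfl fun K hK => ?_
    rw [mem_powerset] at hK
    rw [if_pos, mul_one]
    refine (prod_dvd_iff k n K fun l hl => ?_).2 fun l hl => ?_
    · exact ((mem_Sk hn).1 (mem_filter.1 (hK hl)).1).1
    · exact ((mem_Sk hn).1 (mem_filter.1 (hK hl)).1).2
  · intro K hK hK2
    rw [mem_powerset] at hK hK2
    rw [if_neg, mul_zero]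
    intro h
    apply hK2
    intro l hl
    have h1 := mem_PP.1 (hK hl)
    rw [mem_filter, mem_Sk hn]
    exact ⟨⟨h1.2, (prod_dvd_iff k n K fun l hl => (mem_PP.1 (hK hl)).2).1 h l hl⟩, h1.1⟩

lemma prod_wl (s : ℝ) (K : Finset ℕ) : ∏ l ∈ K, wl s l = if 2 ∈ K then 1 + s else 1 := by
  split_ifs with h2
  · rw [← Finset.mul_prod_erase K _ h2]
    have : ∏ x ∈ K.erase 2, wl s x = 1 := by
      apply Finset.prod_eq_one
      intro l hl
      unfold wl
      rw [if_neg (Finset.ne_of_mem_erase hl)]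
    rw [this, mul_one]
    unfold wl
    rw [if_pos rfl]
  · apply Finset.prod_eq_one
    intro l hl
    unfold wl
    rw [if_neg]
    rintro rfl
    exact h2 hl

/-- changing finitely many terms does not change the average over the primes -/
lemma avg_congr (F G : ℕ → ℝ) (p0 : ℕ) (l : ℝ) (h : ∀ p, p.Prime → p0 ≤ p → F p = G p)
    (hG : Tendsto (fun x : ℕ => (∑ p ∈ PP x, G p) / (Nat.primeCounting x : ℝ)) atTop (𝓝 l)) :
    Tendsto (fun x : ℕ => (∑ p ∈ PP x, F p) / (Nat.primeCounting x : ℝ)) atTop (𝓝 l) := by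
  set B : ℝ := ∑ p ∈ range p0, |F p - G p| with hB
  have hdiff : ∀ x : ℕ, |(∑ p ∈ PP x, F p) - ∑ p ∈ PP x, G p| ≤ B := by
    intro x
    rw [← Finset.sum_sub_distrib]
    refine (Finset.abs_sum_le_sum_abs _ _).trans ?_
    have h1 : ∑ p ∈ PP x, |F p - G p| = ∑ p ∈ (PP x).filter (fun p => p < p0), |F p - G p| := by
      rw [Finset.sum_filter]
      apply Finset.sum_congr rfl
      intro p hp
      split_ifs with h2
      · rfl
      · rw [h p (mem_PP.1 hp).2 (by omega), sub_self, abs_zero]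
    rw [h1]
    refine Finset.sum_le_sum_of_subset_of_nonneg ?_ fun _ _ _ => abs_nonneg _
    intro p hp
    rw [mem_filter] at hp
    exact mem_range.2 hp.2
  have h3 : Tendsto (fun x : ℕ => ((∑ p ∈ PP x, F p) - ∑ p ∈ PP x, G p) /
      (Nat.primeCounting x : ℝ)) atTop (𝓝 0) := by
    have h4 : Tendsto (fun x : ℕ => B / (Nat.primeCounting x : ℝ)) atTop (𝓝 0) :=
      pc_atTop.const_div_atTop _
    refine squeeze_zero_norm (fun x => ?_) h4
    rw [Real.norm_eq_abs, abs_div, Nat.abs_cast]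
    exact div_le_div_of_nonneg_right (hdiff x) (Nat.cast_nonneg _)
  have h5 := h3.add hG
  rw [zero_add] at h5
  refine h5.congr fun x => ?_
  ring

section
variable (f : ℕ) [NeZero f] (A : Finset (ZMod f)ˣ) (D : ℤ) [NeZero (fD f D)]

/-- the limit of the averages with the primes up to `L` -/
noncomputable def dL2 (k L : ℕ) : ℝ :=
  ∑ K ∈ (PP L).powerset, (-1 : ℝ) ^ #K * (1 / ((∏ l ∈ K, ql k l : ℕ) : ℝ)) *
    (if 2 ∈ K then 2 * ((cA (fD f D) (A1 f A D) (∏ l ∈ K, ql k l) : ℝ) /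
        (Nat.totient (Nat.lcm (fD f D) (∏ l ∈ K, ql k l)) : ℝ))
      else ((cA (fD f D) (A0 f A D) (∏ l ∈ K, ql k l) : ℝ) /
        (Nat.totient (Nat.lcm (fD f D) (∏ l ∈ K, ql k l)) : ℝ)))

open Classical in
lemma avg_L2 (k L : ℕ) :
    Tendsto (fun x : ℕ => (∑ p ∈ PP x, if InA f A p then
      gDL (jacobiSym D p : ℝ) k L (p - 1) else 0) /
      (Nat.primeCounting x : ℝ)) atTop (𝓝 (dL2 f A D k L)) := by
  set T : Finset ℕ → ℕ → ℝ := fun K p => if 2 ∈ K then
    2 * (if InA (fD f D) (A1 f A D) p ∧ ∏ l ∈ K, ql k l ∣ p - 1 then (1 : ℝ) else 0) else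
      (if InA (fD f D) (A0 f A D) p ∧ ∏ l ∈ K, ql k l ∣ p - 1 then (1 : ℝ) else 0) with hT
  have hcg : ∀ p, p.Prime → fD f D + 3 ≤ p →
      (if InA f A p then gDL (jacobiSym D p : ℝ) k L (p - 1) else 0) =
        ∑ K ∈ (PP L).powerset, (-1 : ℝ) ^ #K * (1 / ((∏ l ∈ K, ql k l : ℕ) : ℝ)) * T K p := by
    intro p hp hp0
    have hp2 := hp.two_le
    have i0 := inA0 f A D hp (by omega)
    have i1 := inA1 f A D hp (by omega) (by omega)
    have hcop : IsCoprime D (p : ℤ) := by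
      rw [Int.isCoprime_iff_gcd_eq_one]
      have h1 : Nat.Coprime p (fD f D) := cop f D hp (by omega)
      have h2 : Nat.Coprime p D.natAbs :=
        h1.coprime_dvd_right ((Dvd.intro_left 4 rfl).trans (D_dvd f D))
      rw [Int.gcd_eq_natAbs, Int.natAbs_natCast]
      exact h2.symm
    have hj : jacobiSym D p = 1 ∨ jacobiSym D p = -1 :=
      jacobiSym.eq_one_or_neg_one (by rw [← Int.isCoprime_iff_gcd_eq_one]; exact hcop)
    by_cases hA : InA f A p
    · rw [if_pos hA, gDL_expand _ k L (p - 1) (by omega)]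
      refine Finset.sum_congr rfl fun K _ => ?_
      rw [prod_wl]
      simp only [hT]
      rw [i0, i1]
      by_cases h2 : 2 ∈ K
      · simp only [if_pos h2, hA, true_and]
        rcases hj with hj | hj
        · rw [hj]
          simp only [true_and, Int.cast_one]
          split_ifs <;> ring
        · rw [hj]
          have : ¬ ((-1 : ℤ) = 1) := by norm_num
          simp only [this, false_and, if_false, Int.cast_neg, Int.cast_one]
          split_ifs <;> ring
      · simp only [if_neg h2, hA, true_and]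
    · rw [if_neg hA]
      symm
      refine Finset.sum_eq_zero fun K _ => ?_
      simp only [hT]
      rw [i0, i1]
      simp only [hA, false_and, if_false, mul_zero, ite_self]
  refine avg_congr _ _ _ _ hcg ?_
  have h1 : ∀ x : ℕ, (∑ p ∈ PP x, ∑ K ∈ (PP L).powerset,
      (-1 : ℝ) ^ #K * (1 / ((∏ l ∈ K, ql k l : ℕ) : ℝ)) * T K p) / (Nat.primeCounting x : ℝ) =
      ∑ K ∈ (PP L).powerset, (-1 : ℝ) ^ #K * (1 / ((∏ l ∈ K, ql k l : ℕ) : ℝ)) *
          ((∑ p ∈ PP x, T K p) / (Nat.primeCounting x : ℝ)) := by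
    intro x
    rw [Finset.sum_comm, Finset.sum_div]
    refine Finset.sum_congr rfl fun K _ => ?_
    rw [← Finset.mul_sum, mul_div_assoc]
  simp_rw [h1]
  unfold dL2
  apply tendsto_finsetSum
  intro K hK
  rw [mem_powerset] at hK
  apply Tendsto.const_mul
  have hQ : 0 < ∏ l ∈ K, ql k l := prod_ql_pos fun l hl => (mem_PP.1 (hK hl)).2
  by_cases h2 : 2 ∈ K
  · simp only [hT, if_pos h2]
    have h3 := (dens_class (fD f D) _ hQ (A1 f A D)).const_mul 2
    refine h3.congr fun x => ?_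
    rw [← Finset.mul_sum, mul_div_assoc]
  · simp only [hT, if_neg h2]
    exact dens_class (fD f D) _ hQ (A0 f A D)

/-- the term of Lenstra's series -/
noncomputable def term2 (k n : ℕ) : ℝ :=
  if 2 ∣ n then 2 * term (fD f D) (A1 f A D) k n else term (fD f D) (A0 f A D) k n

/-- Lenstra's series for `W = ⟨D m ^ 2⟩` -/
noncomputable def lenD2 (k : ℕ) : ℝ := ∑' n : ℕ, term2 f A D k n

lemma term2_bound (k n : ℕ) : ‖term2 f A D k n‖ ≤
    (2 * (#(A1 f A D) : ℝ) + #(A0 f A D)) * (2 * (1 / (n : ℝ) ^ (3 / 2 : ℝ))) := by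
  have h1 := term_bound (fD f D) (A1 f A D) k n
  have h0 := term_bound (fD f D) (A0 f A D) k n
  have hX : 0 ≤ 2 * (1 / (n : ℝ) ^ (3 / 2 : ℝ)) := by positivity
  have hA1 : (0 : ℝ) ≤ #(A1 f A D) := Nat.cast_nonneg _
  have hA0 : (0 : ℝ) ≤ #(A0 f A D) := Nat.cast_nonneg _
  have m1 : 0 ≤ (#(A1 f A D) : ℝ) * (2 * (1 / (n : ℝ) ^ (3 / 2 : ℝ))) := mul_nonneg hA1 hX
  have m0 : 0 ≤ (#(A0 f A D) : ℝ) * (2 * (1 / (n : ℝ) ^ (3 / 2 : ℝ))) := mul_nonneg hA0 hX
  unfold term2
  split_ifs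
  · rw [norm_mul, Real.norm_eq_abs, abs_of_pos (by norm_num : (0 : ℝ) < 2)]
    nlinarith
  · nlinarith

lemma term2_summable (k : ℕ) : Summable (term2 f A D k) :=
  Summable.of_norm_bounded (Pool.Agent.H730R2.AA.Euler.summable_bound.mul_left _)
    (term2_bound f A D k)

lemma dL2_eq (k L : ℕ) : dL2 f A D k L = ∑ n ∈ SL L, term2 f A D k n := by
  unfold SL dL2
  rw [Finset.sum_image]
  · refine Finset.sum_congr rfl fun K hK => ?_
    rw [mem_powerset] at hK
    have hp : ∀ l ∈ K, l.Prime := fun l hl => (mem_PP.1 (hK hl)).2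
    have h1 : (∏ l ∈ K, l).primeFactors = K := Nat.primeFactors_prod hp
    have hsq : Squarefree (∏ l ∈ K, l) := Pool.Agent.H771R4.AQ.sqf_prod K hp
    have h2 : Qn k (∏ l ∈ K, l) = ∏ l ∈ K, ql k l := by
      unfold Qn
      rw [h1]
    have h3 : (0 : ℝ) < ((∏ l ∈ K, ql k l : ℕ) : ℝ) := by exact_mod_cast prod_ql_pos hp
    have h4 : 2 ∣ ∏ l ∈ K, l ↔ 2 ∈ K := by
      constructor
      · intro h5
        rw [← h1, Nat.mem_primeFactors]
        exact ⟨Nat.prime_two, h5, hsq.ne_zero⟩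
      · intro h5
        exact Finset.dvd_prod_of_mem _ h5
    unfold term2
    by_cases h5 : 2 ∈ K
    · rw [if_pos h5, if_pos (h4.2 h5)]
      unfold term
      rw [Pool.Agent.H730R2.AA.Euler.mu_eq_prod _ hsq, h1, Finset.prod_const, h2]
      rw [mul_one_div, mul_comm (2 : ℝ) (_ / _), ← mul_assoc, div_mul_div_comm]
      ring
    · rw [if_neg h5, if_neg (fun h => h5 (h4.1 h))]
      unfold term
      rw [Pool.Agent.H730R2.AA.Euler.mu_eq_prod _ hsq, h1, Finset.prod_const, h2]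
      rw [mul_one_div, div_mul_div_comm]
  · intro K hK K' hK' h
    simp only [Finset.coe_powerset, Set.mem_preimage, Set.mem_powerset_iff, Finset.coe_subset]
      at hK hK'
    have h1 : (∏ l ∈ K, l).primeFactors = K :=
      Nat.primeFactors_prod fun l hl => (mem_PP.1 (hK hl)).2
    have h2 : (∏ l ∈ K', l).primeFactors = K' :=
      Nat.primeFactors_prod fun l hl => (mem_PP.1 (hK' hl)).2
    rw [← h1, ← h2]
    exact congrArg Nat.primeFactors h

lemma dL2_tendsto (k : ℕ) : Tendsto (dL2 f A D k) atTop (𝓝 (lenD2 f A D k)) := by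
  have h := (term2_summable f A D k).hasSum
  rw [Metric.tendsto_atTop]
  intro ε hε
  have h1 := (Metric.tendsto_nhds.1 h) ε hε
  obtain ⟨s, hs⟩ := (Filter.eventually_atTop.1 h1)
  refine ⟨s.sup id, fun L hL => ?_⟩
  have h2 := hs (SL L ∪ s) subset_union_right
  rw [dL2_eq]
  have h3 : ∑ n ∈ SL L, term2 f A D k n = ∑ n ∈ SL L ∪ s, term2 f A D k n := by
    refine Finset.sum_subset subset_union_left fun n hn hn2 => ?_
    rw [mem_union] at hn
    have hns : n ∈ s := hn.resolve_left hn2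
    have hnL : n ≤ L := (Finset.le_sup (f := id) hns).trans hL
    have hsq : ¬ Squarefree n := fun h => hn2 (mem_SL h hnL)
    unfold term2 term
    rw [ArithmeticFunction.moebius_eq_zero_of_not_squarefree hsq]
    simp
  rw [h3]
  exact h2

open Classical in
/-- the average of the local densities -/
theorem main_lim2 (k : ℕ) :
    Tendsto (fun x : ℕ => (∑ p ∈ PP x, if InA f A p then
      gD (jacobiSym D p : ℝ) k (p - 1) else 0) /
      (Nat.primeCounting x : ℝ)) atTop (𝓝 (lenD2 f A D k)) := by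
  obtain ⟨C, hC, h5⟩ := sumH
  have h7 := dL2_tendsto f A D k
  rw [Metric.tendsto_atTop]
  intro ε hε
  have hLlim : ∀ᶠ L : ℕ in atTop, |dL2 f A D k L - lenD2 f A D k| < ε / 4 := by
    have := (Metric.tendsto_nhds.1 h7) (ε / 4) (by positivity)
    simpa [Real.dist_eq] using this
  have hCL : ∀ᶠ L : ℕ in atTop, C / (L : ℝ) < ε / 4 := by
    have : Tendsto (fun L : ℕ => C / (L : ℝ)) atTop (𝓝 0) :=
      tendsto_const_nhds.div_atTop tendsto_natCast_atTop_atTop
    exact this.eventually (gt_mem_nhds (by positivity))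
  obtain ⟨L, ⟨hL1, hL2⟩, hL3⟩ := ((hLlim.and hCL).and (eventually_ge_atTop 2)).exists
  obtain ⟨x₅, hx₅⟩ := h5 L (by omega)
  have hG : ∀ᶠ x : ℕ in atTop, |(∑ p ∈ PP x, if InA f A p then
      gDL (jacobiSym D p : ℝ) k L (p - 1) else 0) /
      (Nat.primeCounting x : ℝ) - dL2 f A D k L| < ε / 4 := by
    have := (Metric.tendsto_nhds.1 (avg_L2 f A D k L)) (ε / 4) (by positivity)
    simpa [Real.dist_eq] using this
  have hπ : ∀ᶠ x : ℕ in atTop, (1 : ℝ) ≤ (Nat.primeCounting x : ℝ) :=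
    (Filter.tendsto_atTop.mp (tendsto_natCast_atTop_atTop.comp
      Nat.tendsto_primeCounting) _)
  obtain ⟨x₀, hx₀⟩ := eventually_atTop.1 ((hG.and hπ).and (eventually_ge_atTop x₅))
  refine ⟨x₀, fun x hx => ?_⟩
  obtain ⟨⟨g1, g2⟩, g3⟩ := hx₀ x hx
  set P : ℝ := (Nat.primeCounting x : ℝ) with hP
  have hP0 : 0 < P := lt_of_lt_of_le one_pos g2
  have hh := hx₅ x g3
  set SG : ℝ := ∑ p ∈ PP x, if InA f A p then gDL (jacobiSym D p : ℝ) k L (p - 1) else 0 with hSG
  set SR : ℝ := ∑ p ∈ PP x, if InA f A p then gD (jacobiSym D p : ℝ) k (p - 1) else 0 with hSR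
  have h13 : |SG - SR| ≤ C / L * P := by
    rw [hSG, hSR, ← Finset.sum_sub_distrib]
    refine (Finset.abs_sum_le_sum_abs _ _).trans ?_
    refine le_trans ?_ hh
    apply Finset.sum_le_sum
    intro p hp
    have : Fact p.Prime := ⟨(mem_PP.1 hp).2⟩
    have hs : -1 ≤ (jacobiSym D p : ℝ) ∧ (jacobiSym D p : ℝ) ≤ 1 := by
      rcases jacobiSym.trichotomy D p with h | h | h <;> rw [h] <;> norm_num
    obtain ⟨c1, c2⟩ := gDL_gD (p := p) hs.1 hs.2 k L hL3
    have hh0 : 0 ≤ hL L (p - 1) := Finset.sum_nonneg fun l _ => by positivity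
    split_ifs
    · rw [abs_of_nonneg c1]
      exact c2
    · simpa using hh0
  have h14 : |SG - dL2 f A D k L * P| ≤ ε / 4 * P := by
    have e1 : SG - dL2 f A D k L * P = (SG / P - dL2 f A D k L) * P := by
      field_simp
    rw [e1, abs_mul, abs_of_pos hP0]
    exact mul_le_mul_of_nonneg_right g1.le hP0.le
  have h15 : |dL2 f A D k L * P - lenD2 f A D k * P| ≤ ε / 4 * P := by
    rw [← sub_mul, abs_mul, abs_of_pos hP0]
    exact mul_le_mul_of_nonneg_right hL1.le hP0.le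
  have h16 : |SR - lenD2 f A D k * P| < ε * P := by
    have t1 : C / L * P ≤ ε / 4 * P := mul_le_mul_of_nonneg_right hL2.le hP0.le
    rw [abs_le] at h13 h14 h15
    rw [abs_lt]
    have : 0 < ε * P := by positivity
    constructor
    · linarith [h13.1, h13.2, h14.1, h14.2, h15.1, h15.2]
    · linarith [h13.1, h13.2, h14.1, h14.2, h15.1, h15.2]
  rw [Real.dist_eq]
  have h17 : SR / P - lenD2 f A D k = (SR - lenD2 f A D k * P) / P := by
    field_simp
  rw [h17, abs_div, abs_of_pos hP0, div_lt_iff₀ hP0]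
  exact h16

end

end Pool.Agent.H981R3.LN2
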