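import Mathlib
import Pool.Agent.H981R3.LN2.Lim3
import Pool.Agent.H771R4.SE.AllX2

set_option autoImplicit false

/-! # The counting problem of Lenstra's conjecture for `W = ⟨D m ^ 2⟩` and cyclotomic `F` -/

namespace Pool.Agent.H981R3.LN2

open Finset Filter Topology
open Pool.Agent.H386R2.Artin (PP Good hL)
open Pool.Agent.H771R4.SE (Dat not_dvd_of_lt err_nn hL_nn)
open Pool.Agent.H981R3.LN

lemma jac_bounds (D : ℤ) (p : ℕ) : -1 ≤ (jacobiSym D p : ℝ) ∧ (jacobiSym D p : ℝ) ≤ 1 := by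
  rcases jacobiSym.trichotomy D p with h | h | h <;> rw [h] <;> norm_num

open Classical in
/-- primes whose class modulo `f` belongs to `A` and modulo which the index of `D m ^ 2`
divides `k` -/
noncomputable def dLen2 (f : ℕ) [NeZero f] (A : Finset (ZMod f)ˣ) (k : ℕ) (hk : k ≠ 0) (D : ℤ)
    (hD : D ≠ 0) [NeZero (fD f D)] : Dat where
  Q := fun p a => InA f A p ∧ (p - 1) / orderOf ((D : ZMod p) * a ^ 2) ∣ k
  G := fun p => if p.Prime ∧ InA f A p then gD (jacobiSym D p : ℝ) k (p - 1) else 0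
  A := lenD2 f A D k
  p0 := D.natAbs + 1
  G0 := fun p => by
    split_ifs with h
    · have : Fact p.Prime := ⟨h.1⟩
      exact gD_nonneg (p := p) (jac_bounds D p).1 (jac_bounds D p).2 k
    · exact le_rfl
  G1 := fun p => by
    split_ifs with h
    · have : Fact p.Prime := ⟨h.1⟩
      exact (gD_le_one (p := p) (jac_bounds D p).1 (jac_bounds D p).2 k).trans (by norm_num)
    · norm_num
  loc := by
    intro p hp hp0 E M L hL2 hE hM hG
    have : Fact p.Prime := ⟨hp⟩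
    have hpD : ¬ (p : ℤ) ∣ D := not_dvd_of_lt hD hp0
    have hj : jacobiSym D p = legendreSym p D := (jacobiSym.legendreSym.to_jacobiSym p D).symm
    by_cases hA : InA f A p
    · have h := index_countD E M D k hk hE hM hG hpD L hL2
      rw [← hj] at h
      obtain ⟨c1, c2⟩ := gDL_gD (p := p) (jac_bounds D p).1 (jac_bounds D p).2 k L hL2
      have hE0 : (0 : ℝ) ≤ #E := Nat.cast_nonneg _
      have c3 : (#E : ℝ) * (gDL (jacobiSym D p : ℝ) k L (p - 1) -
          gD (jacobiSym D p : ℝ) k (p - 1)) ≤ #E * hL L (p - 1) :=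
        mul_le_mul_of_nonneg_left c2 hE0
      have c4 : 0 ≤ (#E : ℝ) * (gDL (jacobiSym D p : ℝ) k L (p - 1) -
          gD (jacobiSym D p : ℝ) k (p - 1)) := mul_nonneg hE0 c1
      have c5 : 0 ≤ (#E : ℝ) * hL L (p - 1) := mul_nonneg hE0 (hL_nn L p)
      rw [if_pos ⟨hp, hA⟩]
      have e2 : (E.filter (fun q : ℕ => InA f A p ∧
          (p - 1) / orderOf ((D : ZMod p) * ((q : ℕ) : ZMod p) ^ 2) ∣ k)) =
          (E.filter (fun q : ℕ =>
            (p - 1) / orderOf ((D : ZMod p) * ((q : ℕ) : ZMod p) ^ 2) ∣ k)) := by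
        apply filter_congr
        intro q _
        simp only [hA, true_and]
      suffices key : |((#(E.filter (fun q : ℕ => InA f A p ∧
          (p - 1) / orderOf ((D : ZMod p) * ((q : ℕ) : ZMod p) ^ 2) ∣ k)) : ℕ) : ℝ) -
            #E * gD (jacobiSym D p : ℝ) k (p - 1)| ≤
          1 + 2 ^ L * M + 3 * (#E * hL L (p - 1)) + (p - 1).primeFactors.card * M by
        refine le_trans (le_of_eq ?_) key
        congr!
      rw [e2]
      replace h : |((#(E.filter (fun q : ℕ =>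
          (p - 1) / orderOf ((D : ZMod p) * ((q : ℕ) : ZMod p) ^ 2) ∣ k)) : ℕ) : ℝ) -
            #E * gDL (jacobiSym D p : ℝ) k L (p - 1)| ≤
          2 ^ L * M + #E * hL L (p - 1) + (p - 1).primeFactors.card * M := by
        refine le_trans (le_of_eq ?_) h
        congr!
      rw [abs_le] at h ⊢
      constructor
      · linarith [h.1]
      · linarith [h.2]
    · rw [if_neg (fun h => hA h.2), mul_zero, sub_zero]
      have e2 : ((#(E.filter (fun q : ℕ => InA f A p ∧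
          (p - 1) / orderOf ((D : ZMod p) * ((q : ℕ) : ZMod p) ^ 2) ∣ k)) : ℕ) : ℝ) = 0 := by
        rw [filter_eq_empty_iff.2 (fun q _ hcon => hA hcon.1)]
        simp
      refine le_trans (le_of_eq ?_) (err_nn p E M L hM)
      rw [abs_eq_zero]
      refine Eq.trans ?_ e2
      congr!
  lim := by
    refine (main_lim2 f A D k).congr fun x => ?_
    congr 1
    refine Finset.sum_congr rfl fun p hp => ?_
    have h1 := (mem_PP.1 hp).2
    simp only [h1, true_and]

lemma fD_ne {f : ℕ} [NeZero f] {D : ℤ} (hD : D ≠ 0) : fD f D ≠ 0 := by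
  unfold fD
  refine (Nat.lcm_pos (NeZero.pos f) ?_).ne'
  have := Int.natAbs_pos.2 hD
  omega

open Classical in
/-- Lenstra's conjecture on average for `W = ⟨D m ^ 2⟩` -/
theorem lenstra2 (θ C : ℝ) (hθ : 1 / 2 < θ) (hθ1 : θ < 1) (hC : 1 < C)
    (hCθ : θ * (1 - θ) < C * (2 * θ - 1)) :
    ∃ c : ℝ, 0 < c ∧ ∀ (f : ℕ) [NeZero f] (A : Finset (ZMod f)ˣ) (k : ℕ), 1 ≤ k →
      ∀ (D : ℤ) [NeZero (fD f D)], D ≠ 0 → ∀ ε : ℝ, 0 < ε → ∃ N₀ : ℕ, ∀ N : ℕ, N₀ ≤ N →
        (((Finset.Icc 1 N).filter (fun m : ℕ => ∃ x : ℕ, (N : ℝ) ^ C ≤ x ∧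
          (x : ℝ) ≤ Real.exp ((Real.log N) ^ (1 + c)) ∧
          ε * (Nat.primeCounting x : ℝ) <
            |((((Finset.range (x + 1)).filter (fun p : ℕ => p.Prime ∧ InA f A p ∧
              (p - 1) / orderOf ((D * (m : ℤ) ^ 2 : ℤ) : ZMod p) ∣ k)).card : ℕ) : ℝ) -
                lenD2 f A D k * (Nat.primeCounting x : ℝ)|)).card : ℝ) ≤ (N : ℝ) ^ θ := by
  obtain ⟨c, hc, h⟩ := Pool.Agent.H771R4.SE.allX2 θ C hθ hθ1 hC hCθ
  refine ⟨c, hc, fun f hf A k hk D hfD hD ε hε => ?_⟩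
  obtain ⟨N₁, h₁⟩ := h (dLen2 f A k (by omega) D hD) ε hε
  refine ⟨N₁, fun N hN => ?_⟩
  refine le_trans (Nat.cast_le.2 (Finset.card_le_card ?_)) (h₁ N hN)
  intro m hm
  rw [Finset.mem_filter] at hm
  unfold Pool.Agent.H771R4.SE.badY
  rw [Finset.mem_filter]
  obtain ⟨h2, x, h3, h4, h5⟩ := hm
  refine ⟨h2, x, h3, h4, ?_⟩
  have e : ((Finset.range (x + 1)).filter (fun p : ℕ => p.Prime ∧ InA f A p ∧
      (p - 1) / orderOf ((D * (m : ℤ) ^ 2 : ℤ) : ZMod p) ∣ k)).card =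
      Pool.Agent.H771R4.SE.cntE (dLen2 f A k (by omega) D hD) m x := by
    unfold Pool.Agent.H771R4.SE.cntE
    apply congrArg Finset.card
    apply Finset.filter_congr_decidable _ _ _ |>.symm.trans
    apply Finset.filter_congr
    intro p _
    simp only [dLen2, Int.cast_mul, Int.cast_pow, Int.cast_natCast]
  rw [e] at h5
  exact h5

end Pool.Agent.H981R3.LN2
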